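import Pool.Agent.H24.HD.Defs
import Pool.Agent.H24.LQ.Final6
import Pool.Agent.H24.L7.Final7
import Pool.Agent.H24.L5.FIN5

/-!
# The Kakeya maximal inequality: from the theorems LQ0, LQ6, LQ7, L5 and Wolff's range
-/

set_option autoImplicit false

open MeasureTheory ENNReal

namespace Pool.Agent.H24.HD

theorem bound_of_loss {d : ℕ} {q C : ℝ} (hC : Pool.Agent.H53.Kak.Loss d q 0 C) :
    Bound d q (d / q) (1 - 1 / (q * d)) := by
  refine ⟨C, ?_⟩
  intro δ hδ hδ1 N c e he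
  have h1 := hC δ hδ hδ1 (Fin N) Finset.univ c e
    ⟨fun i _ => he.1 i, fun i _ j _ hij => he.2 i j hij⟩
  rw [Finset.card_univ, Fintype.card_fin] at h1
  rw [neg_zero, Real.rpow_zero, mul_one] at h1
  refine le_trans (le_of_eq ?_) h1
  unfold lq mult
  congr 1
  funext x
  rw [← Pool.Agent.H53.Kak.sum_indicator_eq]
  rfl

theorem main1 {α : ℝ} (h1 : 1 < α) (hα : α ^ 3 = 4 * α - 2) {d : ℕ} {q : ℝ}
    (hq : 2 ≤ d ∧ 1 + 2 / (d + 1) < q ∨ d = 5 ∧ 41 / 31 < q ∨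
        6 ≤ d ∧ 1 + α / (d + 0.279 + 0.05 / d) < q) :
    Bound d q (d / q) (1 - 1 / (q * d)) := by
  obtain ⟨C, hC⟩ : ∃ C : ℝ, Pool.Agent.H53.Kak.Loss d q 0 C := by
    rcases hq with ⟨hd, hq⟩ | ⟨rfl, hq⟩ | ⟨hd, hq⟩
    · refine Pool.Agent.H53.Kak.lossless (by omega) (lt_of_le_of_lt (le_of_eq ?_) hq)
      unfold Pool.Agent.H53.Kak.qW
      have : (0 : ℝ) < (d : ℝ) + 1 := by positivity
      field_simp
      ring
    · exact Pool.LQ.lq6 q hq
    · rcases Nat.lt_or_ge 6 d with h7 | h7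
      · exact Pool.LQ.lq0 d h7 α h1 hα q hq
      · obtain rfl : d = 6 := le_antisymm h7 hd
        refine Pool.LQ.lq7 q (lt_of_le_of_lt ?_ hq)
        have := Pool.LQ.Fin22.alpha_low h1 hα
        push_cast
        rw [add_le_add_iff_left, div_le_div_iff₀ (by norm_num) (by norm_num)]
        norm_num
        linarith
  exact bound_of_loss hC

theorem main2 {q : ℝ} (hq : 11 / 8 ≤ q) {ε : ℝ} (hε : 0 < ε) :
    Bound 4 q (9 / q - 4 - ε) (1 / q) := by
  obtain ⟨C, hC⟩ := Pool.L5.fin5 q hq ε hε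
  refine ⟨C, ?_⟩
  intro δ hδ hδ1 N c e he
  have h1 := hC δ hδ hδ1 (Fin N) Finset.univ c e
    ⟨fun i _ => he.1 i, fun i _ j _ hij => he.2 i j hij⟩
  rw [Finset.card_univ, Fintype.card_fin] at h1
  have e1 : δ ^ (5 / q - 4 - ε) * (δ ^ 4 * (N : ℝ)) ^ (1 / q) =
      δ ^ (9 / q - 4 - ε) * (N : ℝ) ^ (1 / q) := by
    rw [Real.mul_rpow (by positivity) (by positivity), ← Real.rpow_natCast,
      ← Real.rpow_mul hδ.le, ← mul_assoc, ← Real.rpow_add hδ]
    congr 2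
    push_cast
    ring
  rw [mul_assoc, e1] at h1
  refine le_trans (le_of_eq ?_) h1
  unfold lq mult
  congr 1
  funext x
  rw [← Pool.Agent.H53.Kak.sum_indicator_eq]
  rfl

end Pool.Agent.H24.HD
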