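import Mathlib

/-!
# Tubes in the Euclidean space and the inequality of Q1: definitions only
-/

set_option autoImplicit false

namespace Pool.Agent.H24.HD

/-- The Euclidean norm. -/
noncomputable def nm {n : ℕ} (x : EuclideanSpace ℝ (Fin n)) : ℝ := ‖x‖

/-- The scalar product. -/
noncomputable def ip {n : ℕ} (x y : EuclideanSpace ℝ (Fin n)) : ℝ := inner ℝ x y

/-- The difference of two vectors. -/
noncomputable def diff {n : ℕ} (x y : EuclideanSpace ℝ (Fin n)) : EuclideanSpace ℝ (Fin n) :=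
  x - y

/-- The norm of `L ^ q`, Lebesgue measure. -/
noncomputable def lq {n : ℕ} (q : ℝ) (f : EuclideanSpace ℝ (Fin n) → ℝ) : ENNReal :=
  MeasureTheory.eLpNorm f (ENNReal.ofReal q) MeasureTheory.volume

/-- The tube of length `1`, radius `δ`, centre `c` and axis direction `e`. -/
def tube {n : ℕ} (δ : ℝ) (c e : EuclideanSpace ℝ (Fin n)) : Set (EuclideanSpace ℝ (Fin n)) :=
  {x | |ip (diff x c) e| ≤ 1 / 2 ∧ nm (diff (diff x c) (ip (diff x c) e • e)) ≤ δ}

/-- The number of tubes which contain the point `x`. -/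
noncomputable def mult {n N : ℕ} (δ : ℝ) (c e : Fin N → EuclideanSpace ℝ (Fin n))
    (x : EuclideanSpace ℝ (Fin n)) : ℝ :=
  ∑ i, (tube δ (c i) (e i)).indicator (fun _ => (1 : ℝ)) x

/-- The directions are unit vectors and `δ`-separated. -/
def Dirs {n N : ℕ} (δ : ℝ) (e : Fin N → EuclideanSpace ℝ (Fin n)) : Prop :=
  (∀ i, nm (e i) = 1) ∧ ∀ i j, i ≠ j → δ ≤ nm (diff (e i) (e j))

/-- `‖∑ 1_T‖_q ≤ C δ ^ s N ^ t` for all `0 < δ < 1` and all families of `N` tubes of radius `δ` in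
dimension `d + 1` with `δ`-separated orientations. -/
def Bound (d : ℕ) (q s t : ℝ) : Prop :=
  ∃ C : ℝ, ∀ δ : ℝ, 0 < δ → δ < 1 →
    ∀ (N : ℕ) (c e : Fin N → EuclideanSpace ℝ (Fin (d + 1))), Dirs δ e →
      lq q (mult δ c e) ≤ ENNReal.ofReal (C * (δ ^ s * (N : ℝ) ^ t))

end Pool.Agent.H24.HD
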